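import Pool.Agent.H913.Row.Defs

/-! # The orbit array: normal form and a family of points of breadth three -/

namespace Pool.Agent.H913.Row

theorem HasBreadth.bounds {l : ℕ} {p : ℤ × ℤ} (h : HasBreadth l p) : 1 ≤ p.2 ∧ p.2 ≤ p.1 := by
  induction h with
  | base => simp
  | applyG _ ih => simp only [G]; omega
  | applyS _ ih => simp only [S]; omega

theorem HasBreadth.iterS {l : ℕ} {x y : ℤ} (h : HasBreadth l (x, y)) (i : ℕ) :
    HasBreadth l (x + i * (2 * (x - y) + 1), y + i * (2 * (x - y) + 1)) := by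
  induction i with
  | zero => simpa using h
  | succ i ih =>
    have h1 := HasBreadth.applyS ih
    have h2 : S (x + i * (2 * (x - y) + 1), y + i * (2 * (x - y) + 1)) =
        (x + ((i + 1 : ℕ) : ℤ) * (2 * (x - y) + 1), y + ((i + 1 : ℕ) : ℤ) * (2 * (x - y) + 1)) := by
      simp only [S, Prod.mk.injEq]
      constructor <;> push_cast <;> ring
    rwa [h2] at h1

theorem hasBreadth_diag (a : ℕ) : HasBreadth 0 ((a : ℤ) + 1, (a : ℤ) + 1) := by
  have h := HasBreadth.iterS HasBreadth.base a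
  have h2 : ((1 : ℤ) + a * (2 * (1 - 1) + 1), (1 : ℤ) + a * (2 * (1 - 1) + 1)) =
      ((a : ℤ) + 1, (a : ℤ) + 1) := by
    simp only [Prod.mk.injEq]
    constructor <;> ring
  rwa [h2] at h

/-- The family `S ^ i G ^ 3 (a, a)`. -/
theorem hasBreadth_three (a i : ℕ) (ha : 1 ≤ a) :
    HasBreadth 3 ((4 * a + i * (6 * a + 1) : ℤ), (a + i * (6 * a + 1) : ℤ)) := by
  obtain ⟨b, rfl⟩ : ∃ b, a = b + 1 := ⟨a - 1, by omega⟩
  have h1 := (HasBreadth.applyG (HasBreadth.applyG (HasBreadth.applyG (hasBreadth_diag b))))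
  have h2 : G (G (G ((b : ℤ) + 1, (b : ℤ) + 1))) = (4 * ((b : ℤ) + 1), (b : ℤ) + 1) := by
    simp only [G, Prod.mk.injEq, and_true]
    ring
  rw [h2] at h1
  have h3 := h1.iterS i
  have h4 : ((4 * ((b : ℤ) + 1)) + i * (2 * (4 * ((b : ℤ) + 1) - ((b : ℤ) + 1)) + 1),
      ((b : ℤ) + 1) + i * (2 * (4 * ((b : ℤ) + 1) - ((b : ℤ) + 1)) + 1)) =
      ((4 * ((b + 1 : ℕ) : ℤ) + i * (6 * ((b + 1 : ℕ) : ℤ) + 1) : ℤ),
        (((b + 1 : ℕ) : ℤ) + i * (6 * ((b + 1 : ℕ) : ℤ) + 1) : ℤ)) := by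
    simp only [Prod.mk.injEq]
    constructor <;> push_cast <;> ring
  rwa [h4] at h3

theorem finite_row (n : ℕ) : {k : ℤ | HasBreadth 3 ((n : ℤ), k)}.Finite := by
  apply (Set.finite_Icc (1 : ℤ) n).subset
  intro k hk
  have := HasBreadth.bounds hk
  exact ⟨this.1, this.2⟩

/-- The divisors `u > 1`, `u ≡ 1 (mod 6)`, of `3 n + 2`. -/
def divs (n : ℕ) : Finset ℕ := (3 * n + 2).divisors.filter (fun u => u % 6 = 1 ∧ u ≠ 1)

theorem mem_divs {n u : ℕ} : u ∈ divs n ↔ u ∣ 3 * n + 2 ∧ u % 6 = 1 ∧ u ≠ 1 := by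
  simp [divs, Nat.mem_divisors]

theorem card_divs_le (n : ℕ) : (divs n).card ≤ c n := by
  have hinj : Set.InjOn (fun u : ℕ => (n : ℤ) - 3 * ((u / 6 : ℕ) : ℤ)) (divs n : Set ℕ) := by
    intro u hu v hv huv
    have hu' := mem_divs.1 (Finset.mem_coe.1 hu)
    have hv' := mem_divs.1 (Finset.mem_coe.1 hv)
    simp only at huv
    omega
  have hsub : (fun u : ℕ => (n : ℤ) - 3 * ((u / 6 : ℕ) : ℤ)) '' (divs n : Set ℕ) ⊆
      {k : ℤ | HasBreadth 3 ((n : ℤ), k)} := by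
    rintro k ⟨u, hu, rfl⟩
    obtain ⟨⟨v, hv⟩, hu1, hu2⟩ := mem_divs.1 (Finset.mem_coe.1 hu)
    set a := u / 6 with ha
    have hua : u = 6 * a + 1 := by omega
    have ha1 : 1 ≤ a := by omega
    have hv3 : v % 3 = 2 := by
      have h1 : (3 * n + 2) % 3 = 2 := by omega
      rw [hv, Nat.mul_mod, hua] at h1
      have h2 : (6 * a + 1) % 3 = 1 := by omega
      rw [h2] at h1
      simpa using h1
    obtain ⟨i, hi⟩ : ∃ i, v = 3 * i + 2 := ⟨v / 3, by omega⟩
    have hn : n = 4 * a + i * (6 * a + 1) := by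
      rw [hua, hi] at hv
      have : 3 * n + 2 = 3 * (4 * a + i * (6 * a + 1)) + 2 := by rw [hv]; ring
      omega
    have h := hasBreadth_three a i ha1
    show HasBreadth 3 _
    have e : (((n : ℤ), (n : ℤ) - 3 * (a : ℤ)) : ℤ × ℤ) =
        ((4 * a + i * (6 * a + 1) : ℤ), (a + i * (6 * a + 1) : ℤ)) := by
      simp only [Prod.mk.injEq]
      constructor
      · rw [hn]; push_cast; ring
      · rw [hn]; push_cast; ring
    rw [e]
    exact h
  have h1 : (divs n : Set ℕ).ncard = (divs n).card := Set.ncard_coe_finset _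
  rw [c, ← h1, ← Set.InjOn.ncard_image hinj]
  exact Set.ncard_le_ncard hsub (finite_row n)

end Pool.Agent.H913.Row
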