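import Mathlib

/-!
# The orbit array of problem MP_5de915_nt: definitions

`HasBreadth l p` says that the lattice point `p` is obtained from `(1, 1)` by a word in the two maps
`S`, `G` which contains `G` exactly `l` times; `c n` is the number of points of row `n` with a word
which contains `G` exactly three times.
-/

namespace Pool.Agent.H913.Row

/-- The map `G (x, y) = (x + y, y)`. -/
def G (p : ℤ × ℤ) : ℤ × ℤ := (p.1 + p.2, p.2)

/-- The map `S (x, y) = (3 x - 2 y + 1, 2 x - y + 1)`. -/
def S (p : ℤ × ℤ) : ℤ × ℤ := (3 * p.1 - 2 * p.2 + 1, 2 * p.1 - p.2 + 1)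

/-- `p` is the image of `(1, 1)` under a word in `S` and `G` with exactly `l` letters `G`. -/
inductive HasBreadth : ℕ → ℤ × ℤ → Prop
  | base : HasBreadth 0 (1, 1)
  | applyG {l : ℕ} {p : ℤ × ℤ} : HasBreadth l p → HasBreadth (l + 1) (G p)
  | applyS {l : ℕ} {p : ℤ × ℤ} : HasBreadth l p → HasBreadth l (S p)

/-- The number of points `(n, k)` of breadth `3` in row `n`. -/
noncomputable def c (n : ℕ) : ℕ := {k : ℤ | HasBreadth 3 ((n : ℤ), k)}.ncard

end Pool.Agent.H913.Row
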