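import Pool.Agent.H913.Row.Basic

/-! # Almost all `3 n + 2` have many prime factors (second moment) -/

namespace Pool.Agent.H913.Row

open Finset Filter Topology

/-- Counting the `n < x` with `d ∣ 3 n + 2`, for `d` prime to `3`. -/
theorem count_dvd (d : ℕ) (hd : 0 < d) (h3 : Nat.Coprime 3 d) (x : ℕ) :
    |(((range x).filter (fun n => d ∣ 3 * n + 2)).card : ℝ) - (x : ℝ) / d| ≤ 1 := by
  obtain ⟨v, hv⟩ : ∃ v : ℕ, d ∣ 3 * v + 2 := by
    obtain ⟨w, -, hw⟩ := Nat.exists_mul_mod_eq_of_coprime (2 * (d - 1)) h3 hd.ne'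
    refine ⟨w, ?_⟩
    have h1 : 3 * w ≡ 2 * (d - 1) [MOD d] := hw
    have h2 : 3 * w + 2 ≡ 2 * (d - 1) + 2 [MOD d] := h1.add_right 2
    have h5 : 2 * (d - 1) + 2 = d * 2 := by omega
    rw [h5] at h2
    exact (Nat.modEq_zero_iff_dvd.1 (h2.trans (Nat.modEq_zero_iff_dvd.2 (dvd_mul_right d 2))))
  have hiff : ∀ n, d ∣ 3 * n + 2 ↔ n ≡ v [MOD d] := by
    intro n
    constructor
    · intro h
      have h1 : 3 * n + 2 ≡ 3 * v + 2 [MOD d] :=
        ((Nat.modEq_zero_iff_dvd.2 h).trans (Nat.modEq_zero_iff_dvd.2 hv).symm)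
      have h2 : 3 * n ≡ 3 * v [MOD d] := Nat.ModEq.add_right_cancel' 2 h1
      exact Nat.ModEq.cancel_left_of_coprime (by simpa [Nat.coprime_comm] using h3) h2
    · intro h
      have h1 : 3 * n + 2 ≡ 3 * v + 2 [MOD d] := (h.mul_left 3).add_right 2
      exact Nat.modEq_zero_iff_dvd.1 (h1.trans (Nat.modEq_zero_iff_dvd.2 hv))
  have hc : ((range x).filter (fun n => d ∣ 3 * n + 2)).card = x.count (· ≡ v [MOD d]) := by
    rw [Nat.count_eq_card_filter_range]
    congr 1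
    ext n
    simp [hiff]
  rw [hc, Nat.count_modEq_card _ hd]
  have hdR : (0 : ℝ) < d := by exact_mod_cast hd
  have h1 : (x : ℝ) = d * (x / d : ℕ) + (x % d : ℕ) := by exact_mod_cast (Nat.div_add_mod x d).symm
  have h2 : (x : ℝ) / d = (x / d : ℕ) + (x % d : ℕ) / d := by
    rw [div_eq_iff hdR.ne', add_mul, div_mul_cancel₀ _ hdR.ne']
    linarith
  have h3 : ((x % d : ℕ) : ℝ) / d < 1 := by
    rw [div_lt_one hdR]
    exact_mod_cast Nat.mod_lt x hd
  have h4 : 0 ≤ ((x % d : ℕ) : ℝ) / d := by positivity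
  push_cast
  rw [h2, abs_le]
  split_ifs <;> constructor <;> linarith

end Pool.Agent.H913.Row
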