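import Pool.Agent.H913.Row.Rank

/-! # Few integers have few prime factors: the Euler product -/

namespace Pool.Agent.H913.Row

open Finset Filter Topology ArithmeticFunction

/-- `F z m / m`. -/
noncomputable def g (z : ℝ) (m : ℕ) : ℝ := F z m / m

theorem g_nonneg {z : ℝ} (hz : 0 ≤ z) (m : ℕ) : 0 ≤ g z m :=
  div_nonneg (F_nonneg hz m) (Nat.cast_nonneg m)

theorem g_one (z : ℝ) : g z 1 = 1 := by
  simp [g, F_apply z one_ne_zero, om_one]

theorem g_mul (z : ℝ) {a b : ℕ} (h : Nat.Coprime a b) : g z (a * b) = g z a * g z b := by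
  by_cases ha : a = 0
  · subst ha
    simp [g]
  by_cases hb : b = 0
  · subst hb
    simp [g]
  unfold g
  rw [F_apply z (Nat.mul_ne_zero ha hb), F_apply z ha, F_apply z hb, om_mul h, pow_add]
  push_cast
  rw [div_mul_div_comm]

/-- The value of `F z` at the positive powers of `p`. -/
noncomputable def w (z : ℝ) (p : ℕ) : ℝ := if 5 ≤ p then z else 1

theorem w_nonneg {z : ℝ} (hz : 0 ≤ z) (p : ℕ) : 0 ≤ w z p := by
  unfold w; split_ifs <;> linarith

theorem F_prime_pow (z : ℝ) {p : ℕ} (hp : p.Prime) (k : ℕ) : F z (p ^ (k + 1)) = w z p := by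
  rw [F_apply z (pow_ne_zero _ hp.ne_zero)]
  have h1 : (p ^ (k + 1)).primeFactors = {p} := Nat.primeFactors_prime_pow (by omega) hp
  unfold om w
  rw [h1, filter_singleton]
  split_ifs <;> simp

theorem hasSum_g (z : ℝ) {p : ℕ} (hp : p.Prime) :
    HasSum (fun k : ℕ => g z (p ^ k)) (1 + w z p / ((p : ℝ) - 1)) := by
  have hp1 : (1 : ℝ) < p := by exact_mod_cast hp.one_lt
  have h0 : HasSum (fun k : ℕ => ((p : ℝ)⁻¹) ^ k) (1 - (p : ℝ)⁻¹)⁻¹ :=
    hasSum_geometric_of_lt_one (by positivity) (inv_lt_one_of_one_lt₀ hp1)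
  have h1 : HasSum (fun k : ℕ => g z (p ^ (k + 1))) (w z p / ((p : ℝ) - 1)) := by
    have h2 := h0.mul_left (w z p * (p : ℝ)⁻¹)
    have h3 : w z p * (p : ℝ)⁻¹ * (1 - (p : ℝ)⁻¹)⁻¹ = w z p / ((p : ℝ) - 1) := by
      have hp0 : (p : ℝ) ≠ 0 := by positivity
      have hp2 : (p : ℝ) - 1 ≠ 0 := by linarith
      have e : (1 : ℝ) - (p : ℝ)⁻¹ = ((p : ℝ) - 1) / p := by field_simp
      rw [e, inv_div]
      field_simp
    rw [h3] at h2
    have h4 : (fun k : ℕ => g z (p ^ (k + 1))) =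
        fun k : ℕ => w z p * (p : ℝ)⁻¹ * ((p : ℝ)⁻¹) ^ k := by
      funext k
      unfold g
      rw [F_prime_pow z hp k]
      push_cast
      rw [pow_succ, inv_pow, div_eq_mul_inv, mul_inv]
      ring
    rw [h4]
    exact h2
  have h4 := (hasSum_nat_add_iff (f := fun k : ℕ => g z (p ^ k)) 1).1 h1
  have h5 : w z p / ((p : ℝ) - 1) + ∑ i ∈ range 1, g z (p ^ i) = 1 + w z p / ((p : ℝ) - 1) := by
    rw [Finset.sum_range_one, pow_zero, g_one, add_comm]
  rw [h5] at h4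
  exact h4

theorem sum_recip (N : ℕ) (hN : 1 ≤ N) :
    ∑ p ∈ Nat.primesLE N, (1 : ℝ) / (p * ((p : ℝ) - 1)) ≤ 1 := by
  have h1 : ∀ M : ℕ, 1 ≤ M → ∑ n ∈ Ioc 1 M, (1 : ℝ) / (n * ((n : ℝ) - 1)) ≤ 1 - 1 / M := by
    intro M hM
    induction M, hM using Nat.le_induction with
    | base => simp
    | succ M hM ih =>
      have hMR : (0 : ℝ) < M := by exact_mod_cast hM
      rw [← Finset.insert_Ioc_right_eq_Ioc_add_one hM, Finset.sum_insert (by simp)]
      have e : (1 : ℝ) / (((M + 1 : ℕ) : ℝ) * (((M + 1 : ℕ) : ℝ) - 1)) =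
          1 / M - 1 / ((M + 1 : ℕ) : ℝ) := by
        push_cast
        have hM1 : (M : ℝ) + 1 ≠ 0 := by positivity
        have hM2 : (M : ℝ) + 1 - 1 = M := by ring
        rw [hM2, div_sub_div _ _ hMR.ne' hM1, mul_comm ((M : ℝ) + 1) M]
        congr 1
        ring
      rw [e]
      linarith
  have h2 : Nat.primesLE N ⊆ Ioc 1 N := by
    intro p hp
    have := Nat.mem_primesLE.1 hp
    exact mem_Ioc.2 ⟨this.2.one_lt, this.1⟩
  have h3 : ∑ p ∈ Nat.primesLE N, (1 : ℝ) / (p * ((p : ℝ) - 1)) ≤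
      ∑ n ∈ Ioc 1 N, (1 : ℝ) / (n * ((n : ℝ) - 1)) := by
    refine Finset.sum_le_sum_of_subset_of_nonneg h2 (fun n hn _ => ?_)
    have : 1 < n := (mem_Ioc.1 hn).1
    have h4 : (1 : ℝ) < n := by exact_mod_cast this
    have h5 : (0 : ℝ) < (n : ℝ) - 1 := by linarith
    positivity
  have h4 := h1 N hN
  have h5 : (0 : ℝ) ≤ 1 / N := by positivity
  linarith

theorem exponent_le (z : ℝ) (hz : 0 ≤ z) (hz1 : z ≤ 1) (N : ℕ) (hN : 2 ≤ N) :
    ∑ p ∈ Nat.primesLE N, w z p / ((p : ℝ) - 1) ≤ z * Real.log (Real.log N) + 11 := by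
  have hlow : ∀ p ∈ Nat.primesLE N, w z p / ((p : ℝ) - 1) ≤
      z * (1 / p + 1 / (p * ((p : ℝ) - 1))) + (if p = 2 then 1 else 0) + (if p = 3 then 1 else 0) := by
    intro p hp
    have hpp := (Nat.mem_primesLE.1 hp).2
    have hp1 : (1 : ℝ) < p := by exact_mod_cast hpp.one_lt
    have hp0 : (0 : ℝ) < (p : ℝ) - 1 := by linarith
    have e : (1 : ℝ) / p + 1 / (p * ((p : ℝ) - 1)) = 1 / ((p : ℝ) - 1) := by
      field_simp
      ring
    rw [e]
    by_cases h5 : 5 ≤ p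
    · have h2 : p ≠ 2 := by omega
      have h3 : p ≠ 3 := by omega
      simp only [w, h5, if_true, h2, h3, if_false, add_zero]
      rw [mul_one_div]
    · have h6 : 2 ≤ p := hpp.two_le
      have hge : 0 ≤ z * (1 / ((p : ℝ) - 1)) := by positivity
      have h7 : p = 2 ∨ p = 3 ∨ p = 4 := by omega
      rcases h7 with rfl | rfl | rfl
      · norm_num [w]
        linarith
      · norm_num [w]
        linarith
      · exact absurd hpp (by decide)
  have h1 := Finset.sum_le_sum hlow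
  rw [Finset.sum_add_distrib, Finset.sum_add_distrib, ← Finset.mul_sum,
    Finset.sum_add_distrib] at h1
  have h2 : ∑ p ∈ Nat.primesLE N, (if p = 2 then (1 : ℝ) else 0) ≤ 1 := by
    rw [Finset.sum_ite_eq']
    split_ifs <;> norm_num
  have h3 : ∑ p ∈ Nat.primesLE N, (if p = 3 then (1 : ℝ) else 0) ≤ 1 := by
    rw [Finset.sum_ite_eq']
    split_ifs <;> norm_num
  have h4 := sum_recip N (by omega)
  have h5 := Pool.Agent.Helper742.SP_le N hN
  unfold Pool.Agent.Helper742.SP at h5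
  have h6 : z * (∑ p ∈ Nat.primesLE N, (1 : ℝ) / p +
      ∑ p ∈ Nat.primesLE N, (1 : ℝ) / (p * ((p : ℝ) - 1))) ≤
      z * (Real.log (Real.log N) + 9) := by
    apply mul_le_mul_of_nonneg_left _ hz
    linarith
  have h7 : z * (Real.log (Real.log N) + 9) ≤ z * Real.log (Real.log N) + 9 := by
    nlinarith
  linarith

theorem sum_g_le (z : ℝ) (hz : 0 ≤ z) (hz1 : z ≤ 1) (N : ℕ) (hN : 2 ≤ N) :
    ∑ m ∈ Ioc 0 N, F z m / m ≤ Real.exp 11 * (Real.log N) ^ z := by
  have hlog : 0 < Real.log N := Real.log_pos (by exact_mod_cast (by omega : 1 < N))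
  have hE := EulerProduct.summable_and_hasSum_smoothNumbers_prod_primesBelow_tsum
    (f := g z) (g_one z) (fun {m n} h => g_mul z h)
    (fun {p} hp => by
      have := (hasSum_g z hp).summable
      exact this.abs) (N + 1)
  have h1 : HasSum ((N + 1).smoothNumbers.indicator (g z))
      (∏ p ∈ (N + 1).primesBelow, ∑' n : ℕ, g z (p ^ n)) :=
    hasSum_subtype_iff_indicator.1 hE.2
  have h2 : ∑ m ∈ Ioc 0 N, F z m / m ≤ ∏ p ∈ (N + 1).primesBelow, ∑' n : ℕ, g z (p ^ n) := by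
    have h3 := sum_le_hasSum (Ioc 0 N) (fun m _ => Set.indicator_nonneg
      (fun m _ => g_nonneg hz m) m) h1
    refine le_trans (le_of_eq ?_) h3
    refine Finset.sum_congr rfl (fun m hm => ?_)
    have hm' := mem_Ioc.1 hm
    rw [Set.indicator_of_mem (Nat.mem_smoothNumbers_of_lt hm'.1 (by omega))]
    rfl
  have h3 : ∏ p ∈ (N + 1).primesBelow, ∑' n : ℕ, g z (p ^ n) ≤
      ∏ p ∈ (N + 1).primesBelow, Real.exp (w z p / ((p : ℝ) - 1)) := by
    refine Finset.prod_le_prod (fun p _ => tsum_nonneg (fun n => g_nonneg hz _)) (fun p hp => ?_)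
    have hpp := Nat.prime_of_mem_primesBelow hp
    rw [(hasSum_g z hpp).tsum_eq]
    have := Real.add_one_le_exp (w z p / ((p : ℝ) - 1))
    linarith
  rw [← Real.exp_sum] at h3
  have h4 := exponent_le z hz hz1 N hN
  have h5 : Real.exp (∑ p ∈ (N + 1).primesBelow, w z p / ((p : ℝ) - 1)) ≤
      Real.exp 11 * (Real.log N) ^ z := by
    rw [Real.rpow_def_of_pos hlog, ← Real.exp_add]
    apply Real.exp_le_exp.2
    have : ∑ p ∈ (N + 1).primesBelow, w z p / ((p : ℝ) - 1) =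
        ∑ p ∈ Nat.primesLE N, w z p / ((p : ℝ) - 1) := rfl
    rw [this]
    linarith
  exact h2.trans (h3.trans h5)

theorem sum_F_le (z : ℝ) (hz : 0 ≤ z) (hz1 : z ≤ 1) (N : ℕ) (hN : 2 ≤ N) :
    ∑ m ∈ Ioc 0 N, F z m ≤ 7 * Real.exp 11 * N * (Real.log N) ^ (z - 1) := by
  have hlog : 0 < Real.log N := Real.log_pos (by exact_mod_cast (by omega : 1 < N))
  have h1 := hall z hz hz1 N (by omega)
  have h2 := sum_g_le z hz hz1 N hN
  rw [Real.rpow_sub_one hlog.ne', ← mul_div_assoc, le_div_iff₀ hlog]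
  calc (∑ m ∈ Ioc 0 N, F z m) * Real.log N ≤ 7 * N * ∑ m ∈ Ioc 0 N, F z m / m := h1
    _ ≤ 7 * N * (Real.exp 11 * (Real.log N) ^ z) :=
        mul_le_mul_of_nonneg_left h2 (by positivity)
    _ = 7 * Real.exp 11 * N * (Real.log N) ^ z := by ring

end Pool.Agent.H913.Row
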