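import Pool.Agent.H913.Row.Dens

/-! # The second moment of the number of prime factors of `3 n + 2` in a finite set of primes -/

namespace Pool.Agent.H913.Row

open Finset Filter Topology

theorem second_moment (P : Finset ℕ) (hP : ∀ p ∈ P, p.Prime ∧ 5 ≤ p) (x : ℕ) :
    ∑ n ∈ range x, (((P.filter (fun p => p ∣ 3 * n + 2)).card : ℝ) - ∑ p ∈ P, (1 : ℝ) / p) ^ 2 ≤
      x * (∑ p ∈ P, (1 : ℝ) / p) + (P.card : ℝ) ^ 2 + 2 * (∑ p ∈ P, (1 : ℝ) / p) * P.card := by
  classical
  set μ : ℝ := ∑ p ∈ P, (1 : ℝ) / p with hμ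
  set ind : ℕ → ℕ → ℝ := fun p n => if p ∣ 3 * n + 2 then 1 else 0 with hind
  have hω : ∀ n, ((P.filter (fun p => p ∣ 3 * n + 2)).card : ℝ) = ∑ p ∈ P, ind p n := by
    intro n
    rw [Finset.card_filter]
    push_cast
    rfl
  have hμ0 : 0 ≤ μ := Finset.sum_nonneg (fun p _ => by positivity)
  have h3 : ∀ p ∈ P, Nat.Coprime 3 p := by
    intro p hp
    rw [Nat.coprime_primes Nat.prime_three (hP p hp).1]
    have := (hP p hp).2
    omega
  have hcnt : ∀ d : ℕ, ∑ n ∈ range x, (if d ∣ 3 * n + 2 then (1 : ℝ) else 0) =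
      (((range x).filter (fun n => d ∣ 3 * n + 2)).card : ℝ) := by
    intro d
    rw [Finset.card_filter]
    push_cast
    rfl
  have hN : ∀ p ∈ P, (x : ℝ) * (1 / p) - 1 ≤ ∑ n ∈ range x, ind p n := by
    intro p hp
    have h := count_dvd p (hP p hp).1.pos (h3 p hp) x
    rw [abs_le] at h
    simp only [hind]
    rw [hcnt p]
    have h1 : (x : ℝ) * (1 / p) = x / p := by ring
    rw [h1]
    linarith [h.1]
  have hNN : ∀ p ∈ P, ∀ q ∈ P, ∑ n ∈ range x, ind p n * ind q n ≤
      x * ((1 / p) * (1 / q)) + 1 + if p = q then (x : ℝ) * (1 / p) else 0 := by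
    intro p hp q hq
    by_cases hpq : p = q
    · subst hpq
      have h := count_dvd p (hP p hp).1.pos (h3 p hp) x
      rw [abs_le] at h
      have h1 : ∑ n ∈ range x, ind p n * ind p n = ∑ n ∈ range x, ind p n := by
        refine Finset.sum_congr rfl (fun n _ => ?_)
        simp only [hind]
        split_ifs <;> simp
      rw [h1]
      simp only [hind, if_true]
      rw [hcnt p]
      have h2 : (x : ℝ) * (1 / p) = x / p := by ring
      have h4 : (0 : ℝ) ≤ x * ((1 / p) * (1 / p)) := by positivity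
      rw [h2]
      linarith [h.2]
    · have hcop : Nat.Coprime p q := (Nat.coprime_primes (hP p hp).1 (hP q hq).1).2 hpq
      have h := count_dvd (p * q) (Nat.mul_pos (hP p hp).1.pos (hP q hq).1.pos)
        (Nat.Coprime.mul_right (h3 p hp) (h3 q hq)) x
      rw [abs_le] at h
      have h1 : ∑ n ∈ range x, ind p n * ind q n =
          ∑ n ∈ range x, (if p * q ∣ 3 * n + 2 then (1 : ℝ) else 0) := by
        refine Finset.sum_congr rfl (fun n _ => ?_)
        simp only [hind]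
        by_cases hh : p * q ∣ 3 * n + 2
        · have ha : p ∣ 3 * n + 2 := (dvd_mul_right p q).trans hh
          have hb : q ∣ 3 * n + 2 := (dvd_mul_left q p).trans hh
          simp [hh, ha, hb]
        · by_cases ha : p ∣ 3 * n + 2
          · by_cases hb : q ∣ 3 * n + 2
            · exact absurd (hcop.mul_dvd_of_dvd_of_dvd ha hb) hh
            · simp [hh, hb]
          · simp [hh, ha]
      rw [h1, hcnt (p * q)]
      simp only [hpq, if_false]
      have h2 : (x : ℝ) * ((1 / p) * (1 / q)) = x / ((p * q : ℕ) : ℝ) := by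
        push_cast
        rw [div_mul_div_comm, one_mul, mul_one_div]
      rw [h2]
      linarith [h.2]
  -- expand the square
  have hexp : ∑ n ∈ range x, (∑ p ∈ P, ind p n - μ) ^ 2 =
      ∑ p ∈ P, ∑ q ∈ P, ∑ n ∈ range x, ind p n * ind q n
        - 2 * μ * ∑ p ∈ P, ∑ n ∈ range x, ind p n + x * μ ^ 2 := by
    have h1 : ∀ n, (∑ p ∈ P, ind p n - μ) ^ 2 =
        (∑ p ∈ P, ∑ q ∈ P, ind p n * ind q n) - 2 * μ * (∑ p ∈ P, ind p n) + μ ^ 2 := by
      intro n
      rw [← Finset.sum_mul_sum]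
      ring
    simp_rw [h1]
    rw [Finset.sum_add_distrib, Finset.sum_sub_distrib, ← Finset.mul_sum, Finset.sum_const,
      card_range, nsmul_eq_mul]
    congr 1
    congr 1
    · rw [Finset.sum_comm]
      refine Finset.sum_congr rfl (fun p _ => ?_)
      rw [Finset.sum_comm]
    · rw [Finset.sum_comm]
  have hA : ∑ p ∈ P, ∑ q ∈ P, ∑ n ∈ range x, ind p n * ind q n ≤
      x * μ ^ 2 + (P.card : ℝ) ^ 2 + x * μ := by
    calc ∑ p ∈ P, ∑ q ∈ P, ∑ n ∈ range x, ind p n * ind q n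
        ≤ ∑ p ∈ P, ∑ q ∈ P, ((x : ℝ) * ((1 / p) * (1 / q)) + 1 +
            if p = q then (x : ℝ) * (1 / p) else 0) :=
          Finset.sum_le_sum (fun p hp => Finset.sum_le_sum (fun q hq => hNN p hp q hq))
      _ = x * μ ^ 2 + (P.card : ℝ) ^ 2 + x * μ := by
          simp_rw [Finset.sum_add_distrib]
          have e1 : ∑ p ∈ P, ∑ q ∈ P, (x : ℝ) * ((1 / p) * (1 / q)) = x * μ ^ 2 := by
            simp_rw [← Finset.mul_sum]
            rw [sq, hμ, Finset.sum_mul]
          have e2 : ∑ _p ∈ P, ∑ _q ∈ P, (1 : ℝ) = (P.card : ℝ) ^ 2 := by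
            simp [sq]
          have e3 : ∑ p ∈ P, ∑ q ∈ P, (if p = q then (x : ℝ) * (1 / p) else 0) = x * μ := by
            rw [hμ, Finset.mul_sum]
            refine Finset.sum_congr rfl (fun p hp => ?_)
            rw [Finset.sum_ite_eq]
            simp [hp]
          rw [e1, e2, e3]
  have hB : x * μ - P.card ≤ ∑ p ∈ P, ∑ n ∈ range x, ind p n := by
    calc x * μ - P.card = ∑ p ∈ P, ((x : ℝ) * (1 / p) - 1) := by
          rw [Finset.sum_sub_distrib, ← Finset.mul_sum]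
          simp [hμ]
      _ ≤ _ := Finset.sum_le_sum (fun p hp => hN p hp)
  simp_rw [hω]
  rw [hexp]
  nlinarith [mul_le_mul_of_nonneg_left hB hμ0]

/-- Few `n < x` have at most `K < μ` prime factors from `P`. -/
theorem few_bad (P : Finset ℕ) (hP : ∀ p ∈ P, p.Prime ∧ 5 ≤ p) (K : ℝ)
    (hK : K ≤ ∑ p ∈ P, (1 : ℝ) / p) (x : ℕ) :
    (((range x).filter (fun n => ((P.filter (fun p => p ∣ 3 * n + 2)).card : ℝ) ≤ K)).card : ℝ) *
      (∑ p ∈ P, (1 : ℝ) / p - K) ^ 2 ≤
      x * (∑ p ∈ P, (1 : ℝ) / p) + (P.card : ℝ) ^ 2 + 2 * (∑ p ∈ P, (1 : ℝ) / p) * P.card := by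
  classical
  refine le_trans ?_ (second_moment P hP x)
  rw [← nsmul_eq_mul, ← Finset.sum_const]
  refine le_trans (Finset.sum_le_sum (g := fun n =>
    (((P.filter (fun p => p ∣ 3 * n + 2)).card : ℝ) - ∑ p ∈ P, (1 : ℝ) / p) ^ 2) ?_)
    (Finset.sum_le_sum_of_subset_of_nonneg (filter_subset _ _) (fun n _ _ => sq_nonneg _))
  intro n hn
  have h := (mem_filter.1 hn).2
  nlinarith

end Pool.Agent.H913.Row
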