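import Pool.Agent.H913.Row.Pow
import Pool.Agent.H913.Row.Mom
import Pool.Graph.R_seed8.H390R2.Mertens

/-! # Rows with few points of breadth three are rare -/

namespace Pool.Agent.H913.Row

open Finset Filter Topology

/-- The primes `5 ≤ p < M`. -/
def PS (M : ℕ) : Finset ℕ := (Nat.primesBelow M).filter (fun p => 5 ≤ p)

theorem mem_PS {M p : ℕ} (h : p ∈ PS M) : p.Prime ∧ 5 ≤ p :=
  ⟨Nat.prime_of_mem_primesBelow (mem_filter.1 h).1, (mem_filter.1 h).2⟩

theorem card_PS (M : ℕ) : (PS M).card ≤ M := by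
  have h : PS M ⊆ range M := by
    intro p hp
    exact mem_range.2 (Nat.lt_of_mem_primesBelow (mem_filter.1 hp).1)
  simpa using card_le_card h

theorem mu_lower (M : ℕ) (hM : 3 ≤ M) :
    Real.log (Real.log M) - 2 ≤ ∑ p ∈ PS M, (1 : ℝ) / p := by
  have h1 := Pool.Agent.H390R2.mertens_lower M hM
  have h2 : ∑ p ∈ Nat.primesBelow M, (1 : ℝ) / p =
      ∑ p ∈ PS M, (1 : ℝ) / p + ∑ p ∈ (Nat.primesBelow M).filter (fun p => ¬ 5 ≤ p), (1 : ℝ) / p :=
    (Finset.sum_filter_add_sum_filter_not _ _ _).symm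
  have h3 : ∑ p ∈ (Nat.primesBelow M).filter (fun p => ¬ 5 ≤ p), (1 : ℝ) / p ≤ 1 := by
    have hsub : (Nat.primesBelow M).filter (fun p => ¬ 5 ≤ p) ⊆ {2, 3} := by
      intro p hp
      have hp1 := Nat.prime_of_mem_primesBelow (mem_filter.1 hp).1
      have hp2 := (mem_filter.1 hp).2
      have hp3 : p < 5 := by omega
      interval_cases p <;> simp_all (config := { decide := true })
    calc ∑ p ∈ (Nat.primesBelow M).filter (fun p => ¬ 5 ≤ p), (1 : ℝ) / p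
        ≤ ∑ p ∈ ({2, 3} : Finset ℕ), (1 : ℝ) / p :=
          Finset.sum_le_sum_of_subset_of_nonneg hsub (fun p _ _ => by positivity)
      _ ≤ 1 := by norm_num
  linarith

/-- The value of `M` used for `x`. -/
def MM (x : ℕ) : ℕ := Nat.sqrt (Nat.sqrt x) + 1

theorem lt_MM_pow (x : ℕ) : x < MM x ^ 4 := by
  have h1 : x < (Nat.sqrt x + 1) ^ 2 := by
    have := Nat.lt_succ_sqrt x
    nlinarith [this]
  have h2 : Nat.sqrt x < (MM x) ^ 2 := by
    have := Nat.lt_succ_sqrt (Nat.sqrt x)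
    unfold MM
    nlinarith [this]
  have h3 : Nat.sqrt x + 1 ≤ MM x ^ 2 := h2
  calc x < (Nat.sqrt x + 1) ^ 2 := h1
    _ ≤ (MM x ^ 2) ^ 2 := Nat.pow_le_pow_left h3 2
    _ = MM x ^ 4 := by ring

theorem MM_sq_le (x : ℕ) (hx : 16 ≤ x) : MM x ^ 2 ≤ x := by
  have h1 : Nat.sqrt x * Nat.sqrt x ≤ x := Nat.sqrt_le x
  have h2 : Nat.sqrt (Nat.sqrt x) * Nat.sqrt (Nat.sqrt x) ≤ Nat.sqrt x := Nat.sqrt_le _
  have h4 : 4 ≤ Nat.sqrt x := by
    rw [Nat.le_sqrt]
    omega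
  have h5 : 2 ≤ Nat.sqrt (Nat.sqrt x) := by
    rw [Nat.le_sqrt]
    omega
  unfold MM
  nlinarith

theorem mu_MM (x : ℕ) (hx : 16 ≤ x) :
    Real.log (Real.log x) - 4 ≤ ∑ p ∈ PS (MM x), (1 : ℝ) / p := by
  have hM3 : 3 ≤ MM x := by
    have h4 : 4 ≤ Nat.sqrt x := by
      rw [Nat.le_sqrt]
      omega
    have h5 : 2 ≤ Nat.sqrt (Nat.sqrt x) := by
      rw [Nat.le_sqrt]
      omega
    unfold MM
    omega
  have h1 := mu_lower (MM x) hM3
  have hx1 : (1 : ℝ) < x := by exact_mod_cast (by omega : 1 < x)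
  have hlx : 0 < Real.log x := Real.log_pos hx1
  have h2 : Real.log x ≤ 4 * Real.log (MM x) := by
    have : (x : ℝ) ≤ (MM x : ℝ) ^ 4 := by exact_mod_cast (lt_MM_pow x).le
    have h3 := Real.log_le_log (by linarith) this
    rw [Real.log_pow] at h3
    exact_mod_cast h3
  have h3 : Real.log (Real.log x) ≤ Real.log 4 + Real.log (Real.log (MM x)) := by
    have hlM : 0 < Real.log (MM x) := by linarith
    rw [← Real.log_mul (by norm_num) hlM.ne']
    exact Real.log_le_log hlx h2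
  have h4 : Real.log 4 ≤ 2 := by
    have : Real.log 4 = 2 * Real.log 2 := by
      rw [show (4 : ℝ) = 2 ^ 2 by norm_num, Real.log_pow]
      norm_num
    have := Real.log_two_lt_d9
    linarith
  linarith

/-- The number of `n < x` for which `3 n + 2` has at most `(1 - η) μ` prime factors from
`[5, MM x)`, where `μ` is the sum of the reciprocals of these primes. -/
theorem bad_le (x : ℕ) (hx : 16 ≤ x) (η : ℝ) (hη : 0 < η)
    (hμ : 1 ≤ ∑ p ∈ PS (MM x), (1 : ℝ) / p) :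
    (((range x).filter (fun n => (((PS (MM x)).filter (fun p => p ∣ 3 * n + 2)).card : ℝ) ≤
      (1 - η) * ∑ p ∈ PS (MM x), (1 : ℝ) / p)).card : ℝ) ≤
      4 * x / (η ^ 2 * ∑ p ∈ PS (MM x), (1 : ℝ) / p) := by
  set μ : ℝ := ∑ p ∈ PS (MM x), (1 : ℝ) / p with hμd
  have hK : (1 - η) * μ ≤ μ := by nlinarith
  have h := few_bad (PS (MM x)) (fun p hp => mem_PS hp) ((1 - η) * μ) hK x
  rw [← hμd] at h
  have hc1 : ((PS (MM x)).card : ℝ) ≤ MM x := by exact_mod_cast card_PS (MM x)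
  have hM2 : ((MM x : ℕ) : ℝ) ^ 2 ≤ x := by exact_mod_cast MM_sq_le x hx
  have hM1 : (1 : ℝ) ≤ MM x := by
    have : 1 ≤ MM x := by unfold MM; omega
    exact_mod_cast this
  have hc0 : (0 : ℝ) ≤ ((PS (MM x)).card : ℝ) := Nat.cast_nonneg _
  have hc2 : ((PS (MM x)).card : ℝ) ^ 2 ≤ x := by nlinarith
  have hc3 : ((PS (MM x)).card : ℝ) ≤ x := by nlinarith
  have hx0 : (0 : ℝ) ≤ x := Nat.cast_nonneg x
  have hden : 0 < η ^ 2 * μ := by positivity
  rw [le_div_iff₀ hden]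
  set B : ℝ := (((range x).filter (fun n => (((PS (MM x)).filter (fun p => p ∣ 3 * n + 2)).card : ℝ) ≤
      (1 - η) * μ)).card : ℝ) with hB
  have h1 : B * (η ^ 2 * μ) * μ ≤ 4 * x * μ := by
    have e : B * (μ - (1 - η) * μ) ^ 2 = B * (η ^ 2 * μ) * μ := by ring
    rw [← e]
    refine h.trans ?_
    nlinarith [mul_le_mul_of_nonneg_left hc3 (by linarith : (0 : ℝ) ≤ 2 * μ)]
  exact le_of_mul_le_mul_right h1 (by linarith)

end Pool.Agent.H913.Row
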