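import Pool.Agent.H913.Row.Final

/-! # Rows with few points of breadth three are rare: the theorem -/

namespace Pool.Agent.H913.Row

open Finset Filter Topology

/-- Away from the bad set the row has many points of breadth three. -/
theorem good_row (x n : ℕ) (hx : 16 ≤ x) (κ δ : ℝ) (h0 : 0 < κ) (hδ : 0 < δ)
    (hκδ : κ + δ ≤ Real.log 2) (h64 : 64 ≤ (Real.log x) ^ δ)
    (hL : 4 < Real.log (Real.log x))
    (hgood : (κ + δ) / Real.log 2 * ∑ p ∈ PS (MM x), (1 : ℝ) / p <
      (((PS (MM x)).filter (fun p => p ∣ 3 * n + 2)).card : ℝ)) :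
    (Real.log x) ^ κ ≤ (c n : ℝ) := by
  set Q := (PS (MM x)).filter (fun p => p ∣ 3 * n + 2) with hQ
  set μ : ℝ := ∑ p ∈ PS (MM x), (1 : ℝ) / p with hμ
  have hl2 : 0 < Real.log 2 := Real.log_pos (by norm_num)
  have hμL : Real.log (Real.log x) - 4 ≤ μ := mu_MM x hx
  have hlx : 0 < Real.log x := Real.log_pos (by exact_mod_cast (by omega : 1 < x))
  have hx1 : 1 ≤ Real.log x := by
    by_contra h
    have := Real.log_nonpos hlx.le (le_of_not_ge h)
    linarith
  have hθ : 0 < (κ + δ) / Real.log 2 := div_pos (by linarith) hl2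
  have hθ1 : (κ + δ) / Real.log 2 ≤ 1 := (div_le_one hl2).2 hκδ
  have hQpos : 0 < Q.card := by
    have : (0 : ℝ) < Q.card := lt_of_le_of_lt (mul_nonneg hθ.le (by linarith)) hgood
    exact_mod_cast this
  have h2 := two_pow_le n Q (fun p hp => ⟨(mem_PS (mem_filter.1 hp).1).1,
    (mem_PS (mem_filter.1 hp).1).2, (mem_filter.1 hp).2⟩)
  have h3 : 2 ^ (Q.card - 1) ≤ c n + 1 := h2.trans (by have := card_divs_le n; omega)
  have h4 : (2 : ℝ) ^ Q.card ≤ 2 * ((c n : ℝ) + 1) := by
    have e : Q.card = (Q.card - 1) + 1 := by omega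
    rw [e, pow_succ]
    have : ((2 : ℝ) ^ (Q.card - 1)) ≤ (c n : ℝ) + 1 := by exact_mod_cast h3
    linarith
  have h5 : Real.exp ((κ + δ) * (Real.log (Real.log x) - 4)) ≤ (2 : ℝ) ^ Q.card := by
    rw [← Real.rpow_natCast, Real.rpow_def_of_pos (by norm_num : (0 : ℝ) < 2)]
    apply Real.exp_le_exp.2
    have h6 : (κ + δ) * μ = Real.log 2 * ((κ + δ) / Real.log 2 * μ) := by
      field_simp
    calc (κ + δ) * (Real.log (Real.log x) - 4) ≤ (κ + δ) * μ :=
          mul_le_mul_of_nonneg_left hμL (by linarith)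
      _ = Real.log 2 * ((κ + δ) / Real.log 2 * μ) := h6
      _ ≤ Real.log 2 * Q.card := mul_le_mul_of_nonneg_left hgood.le hl2.le
  have h7 : (Real.log x) ^ κ * (Real.log x) ^ δ / 16 ≤
      Real.exp ((κ + δ) * (Real.log (Real.log x) - 4)) := by
    rw [← Real.rpow_add hlx, Real.rpow_def_of_pos hlx]
    have e : (κ + δ) * (Real.log (Real.log x) - 4) =
        Real.log (Real.log x) * (κ + δ) + (-(4 * (κ + δ))) := by ring
    rw [e, Real.exp_add, div_eq_mul_inv]
    apply mul_le_mul_of_nonneg_left _ (Real.exp_pos _).le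
    rw [Real.exp_neg]
    apply inv_anti₀ (Real.exp_pos _)
    calc Real.exp (4 * (κ + δ)) ≤ Real.exp (4 * Real.log 2) :=
          Real.exp_le_exp.2 (by linarith)
      _ = 16 := by
          rw [mul_comm, ← Real.rpow_def_of_pos (by norm_num : (0 : ℝ) < 2)]
          norm_num
  have h8 : 1 ≤ (Real.log x) ^ κ := Real.one_le_rpow hx1 h0.le
  nlinarith [mul_le_mul_of_nonneg_left h64 (by linarith : (0 : ℝ) ≤ (Real.log x) ^ κ)]

theorem main (κ : ℝ) (h0 : 0 < κ) (h1 : κ < Real.log 2) :
    ∃ B : ℝ, ∀ x : ℕ, 3 ≤ x →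
      (((range x).filter (fun n => (c n : ℝ) < (Real.log x) ^ κ)).card : ℝ) ≤
        B * x / Real.log (Real.log x) := by
  have hl2 : 0 < Real.log 2 := Real.log_pos (by norm_num)
  set δ : ℝ := (Real.log 2 - κ) / 2 with hδd
  have hδ : 0 < δ := by linarith
  have hκδ : κ + δ < Real.log 2 := by linarith
  set η : ℝ := 1 - (κ + δ) / Real.log 2 with hηd
  have hη : 0 < η := by
    have : (κ + δ) / Real.log 2 < 1 := (div_lt_one hl2).2 hκδ
    linarith
  have hlog : Tendsto (fun x : ℕ => Real.log (x : ℝ)) atTop atTop :=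
    Real.tendsto_log_atTop.comp tendsto_natCast_atTop_atTop
  have hloglog : Tendsto (fun x : ℕ => Real.log (Real.log (x : ℝ))) atTop atTop :=
    Real.tendsto_log_atTop.comp hlog
  have hpow : Tendsto (fun x : ℕ => (Real.log (x : ℝ)) ^ δ) atTop atTop :=
    (tendsto_rpow_atTop hδ).comp hlog
  obtain ⟨x0, hx0⟩ := eventually_atTop.1
    ((hloglog.eventually_ge_atTop 8).and ((hpow.eventually_ge_atTop 64).and
      (eventually_ge_atTop 16)))
  refine ⟨8 / η ^ 2 + |Real.log (Real.log (max x0 3 : ℕ))|, ?_⟩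
  intro x hx3
  have hx3' : (3 : ℝ) ≤ x := by exact_mod_cast hx3
  have hlog1 : 1 < Real.log x := by
    rw [Real.lt_log_iff_exp_lt (by linarith)]
    have := Real.exp_one_lt_d9
    linarith
  have hL0 : 0 < Real.log (Real.log x) := Real.log_pos hlog1
  have hxpos : (0 : ℝ) < x := by linarith
  have hη8 : 0 ≤ 8 / η ^ 2 := by positivity
  rcases lt_or_ge x x0 with hlt | hge
  · -- small `x`
    rw [le_div_iff₀ hL0]
    have hA : (((range x).filter (fun n => (c n : ℝ) < (Real.log x) ^ κ)).card : ℝ) ≤ x := by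
      have := card_le_card (filter_subset (fun n => (c n : ℝ) < (Real.log x) ^ κ) (range x))
      rw [card_range] at this
      exact_mod_cast this
    have hB : Real.log (Real.log x) ≤ |Real.log (Real.log (max x0 3 : ℕ))| := by
      refine le_trans ?_ (le_abs_self _)
      apply Real.log_le_log (by linarith)
      apply Real.log_le_log hxpos
      exact_mod_cast (hlt.le.trans (le_max_left _ _))
    calc (((range x).filter (fun n => (c n : ℝ) < (Real.log x) ^ κ)).card : ℝ) *
          Real.log (Real.log x) ≤ x * |Real.log (Real.log (max x0 3 : ℕ))| :=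
          mul_le_mul hA hB hL0.le hxpos.le
      _ ≤ (8 / η ^ 2 + |Real.log (Real.log (max x0 3 : ℕ))|) * x := by nlinarith
  · obtain ⟨hL8, h64, h16⟩ := hx0 x hge
    set μ : ℝ := ∑ p ∈ PS (MM x), (1 : ℝ) / p with hμ
    have hμL : Real.log (Real.log x) - 4 ≤ μ := mu_MM x h16
    have hμ1 : 1 ≤ μ := by linarith
    have hbad := bad_le x h16 η hη hμ1
    have hsub : (range x).filter (fun n => (c n : ℝ) < (Real.log x) ^ κ) ⊆
        (range x).filter (fun n => (((PS (MM x)).filter (fun p => p ∣ 3 * n + 2)).card : ℝ) ≤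
          (1 - η) * μ) := by
      intro n hn
      rw [mem_filter] at hn ⊢
      refine ⟨hn.1, ?_⟩
      by_contra hcon
      rw [not_le] at hcon
      have e : 1 - η = (κ + δ) / Real.log 2 := by rw [hηd]; ring
      rw [e] at hcon
      have := good_row x n h16 κ δ h0 hδ hκδ.le h64 (by linarith) hcon
      linarith [hn.2]
    have hcard : (((range x).filter (fun n => (c n : ℝ) < (Real.log x) ^ κ)).card : ℝ) ≤
        (((range x).filter (fun n => (((PS (MM x)).filter (fun p => p ∣ 3 * n + 2)).card : ℝ) ≤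
          (1 - η) * μ)).card : ℝ) := by exact_mod_cast card_le_card hsub
    refine hcard.trans (hbad.trans ?_)
    have hμ2 : Real.log (Real.log x) / 2 ≤ μ := by linarith
    have hη2 : 0 < η ^ 2 := by positivity
    calc 4 * x / (η ^ 2 * μ) ≤ 4 * x / (η ^ 2 * (Real.log (Real.log x) / 2)) := by
          apply div_le_div_of_nonneg_left (by linarith) (by positivity)
          exact mul_le_mul_of_nonneg_left hμ2 hη2.le
      _ = (8 / η ^ 2) * x / Real.log (Real.log x) := by
          field_simp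
          ring
      _ ≤ (8 / η ^ 2 + |Real.log (Real.log (max x0 3 : ℕ))|) * x / Real.log (Real.log x) := by
          apply div_le_div_of_nonneg_right _ hL0.le
          apply mul_le_mul_of_nonneg_right _ hxpos.le
          linarith [abs_nonneg (Real.log (Real.log (max x0 3 : ℕ)))]

theorem density_zero (C : ℕ) :
    Tendsto (fun x : ℕ => (((range x).filter (fun n => c n ≤ C)).card : ℝ) / x) atTop (𝓝 0) := by
  have hhalf : (1 / 2 : ℝ) < Real.log 2 := by
    have := Real.log_two_gt_d9
    linarith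
  obtain ⟨B, hB⟩ := main (1 / 2) (by norm_num) hhalf
  have hlog : Tendsto (fun x : ℕ => Real.log (x : ℝ)) atTop atTop :=
    Real.tendsto_log_atTop.comp tendsto_natCast_atTop_atTop
  have hloglog : Tendsto (fun x : ℕ => Real.log (Real.log (x : ℝ))) atTop atTop :=
    Real.tendsto_log_atTop.comp hlog
  have hpow : Tendsto (fun x : ℕ => (Real.log (x : ℝ)) ^ (1 / 2 : ℝ)) atTop atTop :=
    (tendsto_rpow_atTop (by norm_num)).comp hlog
  have hlim : Tendsto (fun x : ℕ => B / Real.log (Real.log (x : ℝ))) atTop (𝓝 0) :=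
    hloglog.const_div_atTop B
  refine squeeze_zero' (Eventually.of_forall (fun x => by positivity)) ?_ hlim
  filter_upwards [hpow.eventually_gt_atTop (C : ℝ), eventually_ge_atTop 3] with x hx hx3
  have hxpos : (0 : ℝ) < x := by exact_mod_cast (by omega : 0 < x)
  have h1 := hB x hx3
  have h2 : (((range x).filter (fun n => c n ≤ C)).card : ℝ) ≤
      (((range x).filter (fun n => (c n : ℝ) < (Real.log x) ^ (1 / 2 : ℝ))).card : ℝ) := by
    have hsub : (range x).filter (fun n => c n ≤ C) ⊆
        (range x).filter (fun n => (c n : ℝ) < (Real.log x) ^ (1 / 2 : ℝ)) := by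
      intro n hn
      rw [mem_filter] at hn ⊢
      refine ⟨hn.1, lt_of_le_of_lt ?_ hx⟩
      exact_mod_cast hn.2
    exact_mod_cast card_le_card hsub
  rw [div_le_iff₀ hxpos]
  refine h2.trans (h1.trans (le_of_eq ?_))
  ring

end Pool.Agent.H913.Row
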