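import Pool.Agent.H913.Row.Euler

/-! # Rows with few points of breadth three are rare: power of the logarithm -/

namespace Pool.Agent.H913.Row

open Finset Filter Topology

theorem few (z : ℝ) (hz : 0 < z) (hz1 : z ≤ 1) (x : ℕ) (hx : 3 ≤ x) (K : ℝ) :
    (((range x).filter (fun n => (om (3 * n + 2) : ℝ) ≤ K)).card : ℝ) ≤
      21 * Real.exp 11 * x * (Real.log x) ^ (z - 1) * z ^ (-K) := by
  classical
  have hxR : (3 : ℝ) ≤ x := by exact_mod_cast hx
  have hlogx : 0 < Real.log x := Real.log_pos (by linarith)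
  set S := (range x).filter (fun n => (om (3 * n + 2) : ℝ) ≤ K) with hS
  have h1 : (S.card : ℝ) ≤ ∑ n ∈ S, z ^ (-K) * F z (3 * n + 2) := by
    rw [← nsmul_one, ← Finset.sum_const]
    refine Finset.sum_le_sum (fun n hn => ?_)
    have hn' := (mem_filter.1 hn).2
    rw [F_apply z (by omega), ← Real.rpow_natCast, ← Real.rpow_add hz]
    exact Real.one_le_rpow_of_pos_of_le_one_of_nonpos hz hz1 (by linarith)
  have h2 : ∑ n ∈ S, F z (3 * n + 2) ≤ ∑ m ∈ Ioc 0 (3 * x), F z m := by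
    have hinj : Set.InjOn (fun n : ℕ => 3 * n + 2) (S : Set ℕ) := by
      intro a _ b _ h
      simp only at h
      omega
    rw [← Finset.sum_image (f := fun m => F z m) hinj]
    refine Finset.sum_le_sum_of_subset_of_nonneg ?_ (fun m _ _ => F_nonneg hz.le m)
    intro m hm
    obtain ⟨n, hn, rfl⟩ := mem_image.1 hm
    have := mem_range.1 (mem_filter.1 hn).1
    exact mem_Ioc.2 ⟨by omega, by omega⟩
  have h3 := sum_F_le z hz.le hz1 (3 * x) (by omega)
  have h4 : (Real.log ((3 * x : ℕ) : ℝ)) ^ (z - 1) ≤ (Real.log x) ^ (z - 1) := by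
    apply Real.rpow_le_rpow_of_nonpos hlogx _ (by linarith)
    apply Real.log_le_log (by linarith)
    push_cast
    linarith
  have hzK : 0 < z ^ (-K) := Real.rpow_pos_of_pos hz _
  have h5 : ∑ m ∈ Ioc 0 (3 * x), F z m ≤ 21 * Real.exp 11 * x * (Real.log x) ^ (z - 1) := by
    refine h3.trans ?_
    have e : 7 * Real.exp 11 * ((3 * x : ℕ) : ℝ) = 21 * Real.exp 11 * x := by
      push_cast; ring
    rw [e]
    exact mul_le_mul_of_nonneg_left h4 (by positivity)
  rw [← Finset.mul_sum] at h1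
  calc (S.card : ℝ) ≤ z ^ (-K) * ∑ n ∈ S, F z (3 * n + 2) := h1
    _ ≤ z ^ (-K) * (21 * Real.exp 11 * x * (Real.log x) ^ (z - 1)) :=
        mul_le_mul_of_nonneg_left (h2.trans h5) hzK.le
    _ = 21 * Real.exp 11 * x * (Real.log x) ^ (z - 1) * z ^ (-K) := by ring

theorem two_pow_om (n : ℕ) : (2 : ℝ) ^ (om (3 * n + 2) : ℝ) ≤ 2 * ((c n : ℝ) + 1) := by
  have h2 := two_pow_le n ((3 * n + 2).primeFactors.filter (fun p => 5 ≤ p)) (fun p hp => by
    have h1 := mem_filter.1 hp
    exact ⟨Nat.prime_of_mem_primeFactors h1.1, h1.2, Nat.dvd_of_mem_primeFactors h1.1⟩)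
  have h3 : 2 ^ (om (3 * n + 2) - 1) ≤ c n + 1 := h2.trans (by have := card_divs_le n; omega)
  rw [Real.rpow_natCast]
  have h4 : ((2 : ℝ) ^ (om (3 * n + 2) - 1)) ≤ (c n : ℝ) + 1 := by exact_mod_cast h3
  have hc0 : (0 : ℝ) ≤ c n := Nat.cast_nonneg _
  rcases Nat.eq_zero_or_pos (om (3 * n + 2)) with h0 | h0
  · rw [h0]; norm_num; linarith
  · have e : om (3 * n + 2) = (om (3 * n + 2) - 1) + 1 := by omega
    rw [e, pow_succ]
    linarith

theorem main2 (α : ℝ) (h0 : 0 < α) (h1 : α < 1) :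
    ∃ B : ℝ, ∀ x : ℕ, 3 ≤ x →
      (((range x).filter (fun n => (c n : ℝ) < (Real.log x) ^ (α * Real.log 2))).card : ℝ) ≤
        B * x / (Real.log x) ^ (1 - α + α * Real.log α) := by
  refine ⟨21 * Real.exp 11 * α ^ (-2 : ℝ), ?_⟩
  intro x hx
  have hxR : (3 : ℝ) ≤ x := by exact_mod_cast hx
  have hl2 : 0 < Real.log 2 := Real.log_pos (by norm_num)
  have hlog1 : 1 < Real.log x := by
    rw [Real.lt_log_iff_exp_lt (by linarith)]
    have := Real.exp_one_lt_d9
    linarith
  have hlog0 : 0 < Real.log x := by linarith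
  set L := Real.log (Real.log x) with hL
  have hsub : (range x).filter (fun n => (c n : ℝ) < (Real.log x) ^ (α * Real.log 2)) ⊆
      (range x).filter (fun n => (om (3 * n + 2) : ℝ) ≤ 2 + α * L) := by
    intro n hn
    rw [mem_filter] at hn ⊢
    refine ⟨hn.1, ?_⟩
    have h2 := two_pow_om n
    have h3 : 1 ≤ (Real.log x) ^ (α * Real.log 2) :=
      Real.one_le_rpow hlog1.le (by positivity)
    have h4 : (2 : ℝ) ^ (om (3 * n + 2) : ℝ) ≤ 4 * (Real.log x) ^ (α * Real.log 2) := by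
      linarith [hn.2]
    have h5 : 4 * (Real.log x) ^ (α * Real.log 2) = (2 : ℝ) ^ (2 + α * L) := by
      rw [Real.rpow_add (by norm_num), Real.rpow_def_of_pos hlog0,
        Real.rpow_def_of_pos (by norm_num : (0 : ℝ) < 2) (α * L)]
      have e1 : Real.log (Real.log x) * (α * Real.log 2) = Real.log 2 * (α * L) := by
        rw [← hL]; ring
      rw [e1]
      norm_num
    rw [h5] at h4
    exact (Real.rpow_le_rpow_left_iff (by norm_num : (1 : ℝ) < 2)).1 h4
  have hcard : (((range x).filter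
      (fun n => (c n : ℝ) < (Real.log x) ^ (α * Real.log 2))).card : ℝ) ≤
      (((range x).filter (fun n => (om (3 * n + 2) : ℝ) ≤ 2 + α * L)).card : ℝ) := by
    exact_mod_cast card_le_card hsub
  refine hcard.trans ((few α h0 h1.le x hx (2 + α * L)).trans (le_of_eq ?_))
  have e2 : α ^ (-(2 + α * L)) = α ^ (-2 : ℝ) * (Real.log x) ^ (-(α * Real.log α)) := by
    rw [neg_add, Real.rpow_add h0, Real.rpow_def_of_pos hlog0,
      Real.rpow_def_of_pos h0 (-(α * L))]
    congr 2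
    rw [← hL]; ring
  have e3 : (Real.log x) ^ (α - 1) * (Real.log x) ^ (-(α * Real.log α)) =
      ((Real.log x) ^ (1 - α + α * Real.log α))⁻¹ := by
    rw [← Real.rpow_add hlog0, ← Real.rpow_neg hlog0.le]
    congr 1
    ring
  rw [e2, div_eq_mul_inv, ← e3]
  ring

theorem main3 (C : ℕ) (θ : ℝ) (h0 : 0 < θ) (h1 : θ < 1) :
    ∃ B : ℝ, ∀ x : ℕ, 3 ≤ x →
      (((range x).filter (fun n => c n ≤ C)).card : ℝ) ≤ B * x / (Real.log x) ^ θ := by
  have hl2 : 0 < Real.log 2 := Real.log_pos (by norm_num)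
  set K : ℝ := Real.logb 2 (2 * ((C : ℝ) + 1)) with hK
  refine ⟨21 * Real.exp 11 * (1 - θ) ^ (-K), ?_⟩
  intro x hx
  have hxR : (3 : ℝ) ≤ x := by exact_mod_cast hx
  have hlog0 : 0 < Real.log x := Real.log_pos (by linarith)
  have hsub : (range x).filter (fun n => c n ≤ C) ⊆
      (range x).filter (fun n => (om (3 * n + 2) : ℝ) ≤ K) := by
    intro n hn
    rw [mem_filter] at hn ⊢
    refine ⟨hn.1, ?_⟩
    have h2 := two_pow_om n
    have h3 : (c n : ℝ) ≤ C := by exact_mod_cast hn.2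
    rw [hK, Real.le_logb_iff_rpow_le (by norm_num) (by positivity)]
    linarith
  have hcard : (((range x).filter (fun n => c n ≤ C)).card : ℝ) ≤
      (((range x).filter (fun n => (om (3 * n + 2) : ℝ) ≤ K)).card : ℝ) := by
    exact_mod_cast card_le_card hsub
  refine hcard.trans ((few (1 - θ) (by linarith) (by linarith) x hx K).trans (le_of_eq ?_))
  have e : (1 - θ - 1 : ℝ) = -θ := by ring
  rw [e, Real.rpow_neg hlog0.le, div_eq_mul_inv]
  ring

end Pool.Agent.H913.Row
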