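import Pool.Agent.H913.Row.Basic

/-! # `k` prime factors give `2 ^ (k - 1) - 1` points of breadth three -/

namespace Pool.Agent.H913.Row

open Finset

theorem mod_six_of_prime {p : ℕ} (hp : p.Prime) (h5 : 5 ≤ p) : p % 6 = 1 ∨ p % 6 = 5 := by
  have h2 : ¬ 2 ∣ p := fun h => by
    have := (Nat.prime_dvd_prime_iff_eq Nat.prime_two hp).1 h
    omega
  have h3 : ¬ 3 ∣ p := fun h => by
    have := (Nat.prime_dvd_prime_iff_eq Nat.prime_three hp).1 h
    omega
  omega

theorem mod_six_prod (T : Finset ℕ) (hT : ∀ p ∈ T, p % 6 = 1 ∨ p % 6 = 5) :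
    (∏ p ∈ T, p) % 6 = 1 ∨ (∏ p ∈ T, p) % 6 = 5 := by
  classical
  induction T using Finset.induction_on with
  | empty => left; simp
  | insert a T ha ih =>
    rw [Finset.prod_insert ha, Nat.mul_mod]
    have h1 := hT a (mem_insert_self a T)
    have h2 := ih (fun p hp => hT p (mem_insert_of_mem hp))
    rcases h1 with h1 | h1 <;> rcases h2 with h2 | h2 <;> simp [h1, h2]

theorem mod_six_prod_one (T : Finset ℕ) (hT : ∀ p ∈ T, p % 6 = 1) :
    (∏ p ∈ T, p) % 6 = 1 := by
  classical
  induction T using Finset.induction_on with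
  | empty => simp
  | insert a T ha ih =>
    rw [Finset.prod_insert ha, Nat.mul_mod]
    have h1 := hT a (mem_insert_self a T)
    have h2 := ih (fun p hp => hT p (mem_insert_of_mem hp))
    simp [h1, h2]

theorem two_pow_le (n : ℕ) (Q : Finset ℕ) (hQ : ∀ p ∈ Q, p.Prime ∧ 5 ≤ p ∧ p ∣ 3 * n + 2) :
    2 ^ (Q.card - 1) ≤ (divs n).card + 1 := by
  classical
  rcases Q.eq_empty_or_nonempty with rfl | hne
  · simp
  have hmod : ∀ p ∈ Q, p % 6 = 1 ∨ p % 6 = 5 := fun p hp => mod_six_of_prime (hQ p hp).1 (hQ p hp).2.1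
  obtain ⟨p1, hp1, hp1'⟩ : ∃ p1 ∈ Q, p1 % 6 = 5 ∨ (∀ p ∈ Q, p % 6 = 1) := by
    by_cases h : ∃ p ∈ Q, p % 6 = 5
    · obtain ⟨p, hp, hp'⟩ := h
      exact ⟨p, hp, Or.inl hp'⟩
    · obtain ⟨p, hp⟩ := hne
      refine ⟨p, hp, Or.inr ?_⟩
      intro q hq
      rcases hmod q hq with h1 | h1
      · exact h1
      · exact absurd ⟨q, hq, h1⟩ h
  set g : Finset ℕ → Finset ℕ := fun T => if (∏ p ∈ T, p) % 6 = 1 then T else insert p1 T with hg
  set f : Finset ℕ → ℕ := fun T => ∏ p ∈ g T, p with hf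
  have hgsub : ∀ T ∈ (Q.erase p1).powerset, g T ⊆ Q := by
    intro T hT
    have hTQ : T ⊆ Q := (mem_powerset.1 hT).trans (erase_subset _ _)
    simp only [hg]
    split_ifs
    · exact hTQ
    · exact insert_subset hp1 hTQ
  have hp1T : ∀ T ∈ (Q.erase p1).powerset, p1 ∉ T := by
    intro T hT h
    have := (mem_powerset.1 hT) h
    simp at this
  have hgerase : ∀ T ∈ (Q.erase p1).powerset, (g T).erase p1 = T := by
    intro T hT
    simp only [hg]
    split_ifs
    · exact erase_eq_of_notMem (hp1T T hT)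
    · exact erase_insert (hp1T T hT)
  have hfpf : ∀ T ∈ (Q.erase p1).powerset, (f T).primeFactors = g T := by
    intro T hT
    exact Nat.primeFactors_prod (fun p hp => (hQ p (hgsub T hT hp)).1)
  have hinj : Set.InjOn f ((Q.erase p1).powerset : Set (Finset ℕ)) := by
    intro T hT T' hT' h
    rw [← hgerase T hT, ← hgerase T' hT', ← hfpf T hT, ← hfpf T' hT', h]
  have himg : (Q.erase p1).powerset.image f ⊆ insert 1 (divs n) := by
    intro u hu
    obtain ⟨T, hT, rfl⟩ := mem_image.1 hu
    rw [mem_insert, mem_divs]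
    by_cases h1 : f T = 1
    · exact Or.inl h1
    refine Or.inr ⟨?_, ?_, h1⟩
    · exact Finset.prod_primes_dvd _ (fun p hp => (hQ p (hgsub T hT hp)).1.prime)
        (fun p hp => (hQ p (hgsub T hT hp)).2.2)
    · have hTQ : T ⊆ Q := (mem_powerset.1 hT).trans (erase_subset _ _)
      have h2 := mod_six_prod T (fun p hp => hmod p (hTQ hp))
      simp only [hf, hg]
      split_ifs with h3
      · exact h3
      · rw [Finset.prod_insert (hp1T T hT)]
        rcases hp1' with h4 | h4
        · have h5 : (∏ p ∈ T, p) % 6 = 5 := by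
            rcases h2 with h2 | h2
            · exact absurd h2 h3
            · exact h2
          rw [Nat.mul_mod, h4, h5]
        · exact absurd (mod_six_prod_one T (fun p hp => h4 p (hTQ hp))) h3
  have hcard := card_le_card himg
  rw [card_image_of_injOn hinj, card_powerset, card_erase_of_mem hp1] at hcard
  exact hcard.trans (card_insert_le _ _)

end Pool.Agent.H913.Row
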