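import Pool.Agent.H913.Row.Pow
import Pool.Graph.R_pool_sql_team_668148b0.Helper742.Mertens

/-! # Few integers have few prime factors (Hall-Tenenbaum inequality and Rankin's method) -/

namespace Pool.Agent.H913.Row

open Finset Filter Topology ArithmeticFunction

/-- The number of primes `p ≥ 5` which divide `m`. -/
def om (m : ℕ) : ℕ := (m.primeFactors.filter (fun p => 5 ≤ p)).card

theorem om_one : om 1 = 0 := by simp [om]

theorem om_mono {a b : ℕ} (h : a ∣ b) (hb : b ≠ 0) : om a ≤ om b :=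
  card_le_card (filter_subset_filter _ (Nat.primeFactors_mono h hb))

theorem om_mul {a b : ℕ} (h : Nat.Coprime a b) : om (a * b) = om a + om b := by
  classical
  unfold om
  rw [h.primeFactors_mul, filter_union, card_union_of_disjoint]
  exact disjoint_filter_filter h.disjoint_primeFactors

/-- The arithmetic function `z ^ om m`. -/
noncomputable def F (z : ℝ) : ArithmeticFunction ℝ :=
  ⟨fun m => if m = 0 then 0 else z ^ om m, by simp⟩

theorem F_apply (z : ℝ) {m : ℕ} (hm : m ≠ 0) : F z m = z ^ om m := by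
  simp [F, hm]

theorem F_nonneg {z : ℝ} (hz : 0 ≤ z) (m : ℕ) : 0 ≤ F z m := by
  by_cases hm : m = 0
  · subst hm; simp
  · rw [F_apply z hm]; positivity

theorem F_anti {z : ℝ} (hz : 0 ≤ z) (hz1 : z ≤ 1) {a b : ℕ} (h : a ∣ b) (hb : b ≠ 0) :
    F z b ≤ F z a := by
  have ha : a ≠ 0 := fun h0 => hb (by rw [h0] at h; exact zero_dvd_iff.1 h)
  rw [F_apply z hb, F_apply z ha]
  exact pow_le_pow_of_le_one hz hz1 (om_mono h hb)

theorem hall (z : ℝ) (hz : 0 ≤ z) (hz1 : z ≤ 1) (N : ℕ) (hN : 1 ≤ N) :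
    (∑ m ∈ Ioc 0 N, F z m) * Real.log N ≤ 7 * N * ∑ m ∈ Ioc 0 N, F z m / m := by
  have hNR : (0 : ℝ) < N := by exact_mod_cast hN
  -- `F(m) log m ≤ (F * Λ)(m)`
  have h1 : ∀ m ∈ Ioc 0 N, F z m * Real.log m ≤ (F z * vonMangoldt) m := by
    intro m hm
    have hm0 : m ≠ 0 := by have := (mem_Ioc.1 hm).1; omega
    rw [ArithmeticFunction.mul_apply, ← vonMangoldt_sum, Finset.mul_sum,
      ← Nat.sum_divisorsAntidiagonal' (f := fun a b => F z m * vonMangoldt b)]
    refine Finset.sum_le_sum (fun x hx => ?_)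
    have hx' := Nat.mem_divisorsAntidiagonal.1 hx
    refine mul_le_mul_of_nonneg_right ?_ vonMangoldt_nonneg
    exact F_anti hz hz1 ⟨x.2, hx'.1.symm⟩ hm0
  have h2 : ∑ m ∈ Ioc 0 N, (F z * vonMangoldt) m ≤
      (Real.log 4 + 4) * N * ∑ m ∈ Ioc 0 N, F z m / m := by
    rw [sum_Ioc_mul_eq_sum_sum, Finset.mul_sum]
    refine Finset.sum_le_sum (fun m hm => ?_)
    have hm1 : 0 < m := (mem_Ioc.1 hm).1
    have hmR : (0 : ℝ) < m := by exact_mod_cast hm1
    have h3 : ∑ k ∈ Ioc 0 (N / m), vonMangoldt k ≤ (Real.log 4 + 4) * ((N : ℝ) / m) := by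
      have h4 := Chebyshev.psi_le_const_mul_self (x := (N : ℝ) / m) (by positivity)
      have h5 : ⌊(N : ℝ) / m⌋₊ = N / m := by
        rw [← Nat.floor_div_eq_div (K := ℝ)]
      rw [Chebyshev.psi, h5] at h4
      exact h4
    calc F z m * ∑ k ∈ Ioc 0 (N / m), vonMangoldt k
        ≤ F z m * ((Real.log 4 + 4) * ((N : ℝ) / m)) :=
          mul_le_mul_of_nonneg_left h3 (F_nonneg hz m)
      _ = (Real.log 4 + 4) * N * (F z m / m) := by ring
  have h3 : ∀ m ∈ Ioc 0 N, F z m * Real.log N ≤ F z m * Real.log m + N * (F z m / m) := by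
    intro m hm
    have hm1 : 0 < m := (mem_Ioc.1 hm).1
    have hmR : (0 : ℝ) < m := by exact_mod_cast hm1
    have h4 : Real.log N = Real.log m + Real.log ((N : ℝ) / m) := by
      rw [Real.log_div hNR.ne' hmR.ne']; ring
    have h5 : Real.log ((N : ℝ) / m) ≤ (N : ℝ) / m := by
      have := Real.log_le_sub_one_of_pos (show (0 : ℝ) < (N : ℝ) / m by positivity)
      linarith
    rw [h4, mul_add]
    have h6 := mul_le_mul_of_nonneg_left h5 (F_nonneg hz m)
    have h7 : F z m * ((N : ℝ) / m) = N * (F z m / m) := by ring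
    linarith
  have hlog4 : Real.log 4 ≤ 2 := by
    have : Real.log 4 = 2 * Real.log 2 := by
      rw [show (4 : ℝ) = 2 ^ 2 by norm_num, Real.log_pow]
      norm_num
    have := Real.log_two_lt_d9
    linarith
  have hS : 0 ≤ ∑ m ∈ Ioc 0 N, F z m / m :=
    Finset.sum_nonneg (fun m _ => div_nonneg (F_nonneg hz m) (Nat.cast_nonneg m))
  calc (∑ m ∈ Ioc 0 N, F z m) * Real.log N = ∑ m ∈ Ioc 0 N, F z m * Real.log N := by
        rw [Finset.sum_mul]
    _ ≤ ∑ m ∈ Ioc 0 N, (F z m * Real.log m + N * (F z m / m)) := Finset.sum_le_sum h3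
    _ = ∑ m ∈ Ioc 0 N, F z m * Real.log m + N * ∑ m ∈ Ioc 0 N, F z m / m := by
        rw [Finset.sum_add_distrib, ← Finset.mul_sum]
    _ ≤ ∑ m ∈ Ioc 0 N, (F z * vonMangoldt) m + N * ∑ m ∈ Ioc 0 N, F z m / m := by
        have := Finset.sum_le_sum h1
        linarith
    _ ≤ 7 * N * ∑ m ∈ Ioc 0 N, F z m / m := by
        nlinarith [mul_nonneg hNR.le hS]

end Pool.Agent.H913.Row
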